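import Pool.Agent.Helper71.PR.Basic

/-!
# Project PR: existence of a compact flat
-/

set_option autoImplicit false

namespace Pool.Agent.Helper35.PR

open Pool.Agent.Helper71.PR
open Matrix Filter Topology

theorem row_ne {ι : Type} [Fintype ι] [DecidableEq ι] (M : Matrix ι ι ℝ) (h : M.det ≠ 0) (i : ι) :
    (fun x => M i x) ≠ 0 := by
  intro h0
  exact h (Matrix.det_eq_zero_of_row_eq_zero i fun x => congrFun h0 x)

theorem col_ne {ι : Type} [Fintype ι] [DecidableEq ι] (M : Matrix ι ι ℝ) (h : M.det ≠ 0) (k : ι) :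
    (fun x => M x k) ≠ 0 := by
  intro h0
  exact h (Matrix.det_eq_zero_of_column_eq_zero k fun x => congrFun h0 x)

theorem triple_entry {ι : Type} [Fintype ι] (A B C : Matrix ι ι ℝ) (i k : ι) :
    (A * B * C) i k = (fun x => A i x) ⬝ᵥ (B *ᵥ (fun x => C x k)) := by
  rw [Matrix.mul_assoc, Matrix.mul_apply]
  rfl

theorem k0 (h1 : G_SEQ) (h2 : G_N) (h3 : G_LDUS) (h4 : G_LDU1) (h5 : G_D) (h6 : G_T) : G_K0 := by
  intro n hn Γ hLF hZD hCov
  have hn1 : 1 ≤ n := by omega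
  obtain ⟨γ, t, a, b, hγ, hlim⟩ := h1 n hn1 Γ hZD
  have hr : ∀ j : Fin n, (j : ℕ) + 1 ≤ n := fun j => j.2
  have hs : ∀ j : Fin n, (Pi.single (bd j j le_rfl) (1 : ℝ) : JS ((j : ℕ) + 1) n → ℝ) ≠ 0 := by
    intro j h
    have := congrFun h (bd j j le_rfl)
    rw [Pi.single_eq_same] at this
    exact one_ne_zero this
  -- the elements `h₁`, `h₂`
  obtain ⟨g1, hg1, hh1⟩ := h2 n hn1 Γ hZD (Fin n) (fun j => (j : ℕ) + 1) (fun j => Pi.single (bd j j le_rfl) 1)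
    (fun j => a ((j : ℕ) + 1)) hs (fun j => (hlim _ (hr j)).1)
  obtain ⟨g2, hg2, hh2⟩ := h2 n hn1 Γ hZD (Fin n) (fun j => (j : ℕ) + 1) (fun j => b ((j : ℕ) + 1))
    (fun j => Pi.single (bd j j le_rfl) 1) (fun j => (hlim _ (hr j)).2.1) hs
  have hx : ∀ j : Fin n, (cp ((j : ℕ) + 1) g1.1 *ᵥ a ((j : ℕ) + 1)) (bd j j le_rfl) ≠ 0 := by
    intro j
    have := hh1 j
    rwa [single_dotProduct, one_mul] at this
  have hy : ∀ j : Fin n, (b ((j : ℕ) + 1) ᵥ* cp ((j : ℕ) + 1) g2.1) (bd j j le_rfl) ≠ 0 := by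
    intro j
    have := hh2 j
    rwa [Matrix.dotProduct_mulVec, dotProduct_single, mul_one] at this
  -- the sequence `z`
  have hlz : ∀ j : Fin n, Tendsto (fun m => t m ((j : ℕ) + 1) • cp ((j : ℕ) + 1) (g1 * γ m * g2).1) atTop
      (𝓝 (vecMulVec (cp ((j : ℕ) + 1) g1.1 *ᵥ a ((j : ℕ) + 1)) (b ((j : ℕ) + 1) ᵥ* cp ((j : ℕ) + 1) g2.1))) := by
    intro j
    have e1 : ∀ m, t m ((j : ℕ) + 1) • cp ((j : ℕ) + 1) (g1 * γ m * g2).1 =
        cp ((j : ℕ) + 1) g1.1 * (t m ((j : ℕ) + 1) • cp ((j : ℕ) + 1) (γ m).1) * cp ((j : ℕ) + 1) g2.1 := by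
      intro m
      have e2 : (g1 * γ m * g2).1 = g1.1 * (γ m).1 * g2.1 := rfl
      rw [e2, cp_mul, cp_mul, Matrix.mul_smul, Matrix.smul_mul]
    have e3 : vecMulVec (cp ((j : ℕ) + 1) g1.1 *ᵥ a ((j : ℕ) + 1)) (b ((j : ℕ) + 1) ᵥ* cp ((j : ℕ) + 1) g2.1) =
        cp ((j : ℕ) + 1) g1.1 * vecMulVec (a ((j : ℕ) + 1)) (b ((j : ℕ) + 1)) * cp ((j : ℕ) + 1) g2.1 := by
      rw [Matrix.mul_vecMulVec, Matrix.vecMulVec_mul]
    rw [e3]
    simp only [e1]
    have hc : Continuous (fun X : Matrix (JS ((j : ℕ) + 1) n) (JS ((j : ℕ) + 1) n) ℝ =>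
        cp ((j : ℕ) + 1) g1.1 * X * cp ((j : ℕ) + 1) g2.1) :=
      (continuous_const.matrix_mul continuous_id).matrix_mul continuous_const
    exact (hc.tendsto _).comp (hlim _ (hr j)).2.2
  obtain ⟨L, U, d, L0, U0, C, hL, hU, hL0, hU0, htL, htU, -, -, hd, hY, -, hgap⟩ :=
    h3 n (fun m => (g1 * γ m * g2).1) (fun m j => t m ((j : ℕ) + 1))
      (fun j => vecMulVec (cp ((j : ℕ) + 1) g1.1 *ᵥ a ((j : ℕ) + 1)) (b ((j : ℕ) + 1) ᵥ* cp ((j : ℕ) + 1) g2.1)) hlz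
      (fun j => by
        rw [Matrix.vecMulVec_apply]
        exact mul_ne_zero (hx j) (hy j))
  have hgap' : Gap d := ⟨Eventually.of_forall hd, hgap fun j I K I' K' => by
    simp only [Matrix.vecMulVec_apply]
    ring⟩
  have hL0d : L0.det ≠ 0 := by rw [hL0.det]; exact one_ne_zero
  have hU0d : U0.det ≠ 0 := by rw [hU0.det]; exact one_ne_zero
  -- the element `η`
  obtain ⟨η, hη, hhη⟩ := h2 n hn1 Γ hZD (Fin n) (fun j => (j : ℕ) + 1)
    (fun j => fun x => cp ((j : ℕ) + 1) U0 (bd j j le_rfl) x) (fun j => fun x => cp ((j : ℕ) + 1) L0 x (bd j j le_rfl))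
    (fun j => row_ne _ (cp_det_ne _ _ hU0d) _) (fun j => col_ne _ (cp_det_ne _ _ hL0d) _)
  have hld : ∀ j : Fin n, ld j (U0 * η.1 * L0) ≠ 0 := by
    intro j
    have h := hhη j
    rw [← triple_entry] at h
    show cp ((j : ℕ) + 1) (U0 * η.1 * L0) (bd j j le_rfl) (bd j j le_rfl) ≠ 0
    rw [cp_mul, cp_mul]
    exact h
  obtain ⟨L', U', d', hL', hU', hd', hYe, -, -, -⟩ := h4 n (U0 * η.1 * L0) hld
  have hηd : η.1.det = 1 := η.2
  have hUηd : (U0 * η.1).det ≠ 0 := by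
    rw [Matrix.det_mul, hU0.det, hηd, one_mul]
    exact one_ne_zero
  have hUη : IsUnit (U0 * η.1).det := isUnit_iff_ne_zero.2 hUηd
  have hld' : (L' * diagonal d').det ≠ 0 := by
    rw [Matrix.det_mul, hL'.det, one_mul, Matrix.det_diagonal]
    exact Finset.prod_ne_zero_iff.2 fun i _ => hd' i
  have hkey : L0 * U'⁻¹ = (U0 * η.1)⁻¹ * (L' * diagonal d') := by
    have e1 : L0 = (U0 * η.1)⁻¹ * (L' * diagonal d' * U') := by
      rw [← hYe, ← Matrix.mul_assoc, Matrix.nonsing_inv_mul _ hUη, Matrix.one_mul]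
    calc L0 * U'⁻¹ = (U0 * η.1)⁻¹ * (L' * diagonal d' * U') * U'⁻¹ := by rw [← e1]
      _ = (U0 * η.1)⁻¹ * (L' * diagonal d') * (U' * U'⁻¹) := by simp only [Matrix.mul_assoc]
      _ = (U0 * η.1)⁻¹ * (L' * diagonal d') := by
        rw [Matrix.mul_nonsing_inv U' hU'.isUnit, Matrix.mul_one]
  have htq' : Tendsto (fun m => (U m * η.1)⁻¹) atTop (𝓝 (U0 * η.1)⁻¹) := by
    apply tendsto_inv_mt _ hUηd
    have hc : Continuous (fun X : Mt n => X * η.1) := continuous_id.matrix_mul continuous_const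
    exact (hc.tendsto _).comp htU
  obtain ⟨δ, hδ, k, μ, hR, -⟩ := h5 n hn1 Γ hZD (n - 2) hCov (fun m => g1 * γ m * g2) (fun m => g1 * γ m * g2 * η)
    L (fun m => (U m)⁻¹) L (fun m => (U m * η.1)⁻¹) d d L0 U0⁻¹ L0 (U0 * η.1)⁻¹ U'⁻¹ (L' * diagonal d')
    (fun m => mul_mem (mul_mem hg1 (hγ m)) hg2) (fun m => mul_mem (mul_mem (mul_mem hg1 (hγ m)) hg2) hη)
    (by
      filter_upwards [hY] with m hm
      rw [Matrix.nonsing_inv_nonsing_inv _ (hU m).isUnit]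
      exact hm)
    (by
      filter_upwards [hY] with m hm
      have hu : IsUnit (U m * η.1).det := by
        rw [Matrix.det_mul, (hU m).det, hηd, one_mul]
        exact isUnit_one
      rw [Matrix.nonsing_inv_nonsing_inv _ hu]
      have e2 : (g1 * γ m * g2 * η).1 = (g1 * γ m * g2).1 * η.1 := rfl
      rw [e2, hm, Matrix.mul_assoc])
    htL (tendsto_inv_mt htU hU0d) htL htq' hL0d
    (by rw [Matrix.det_nonsing_inv, hU0.det, Ring.inverse_one]; exact one_ne_zero) hL0d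
    (by
      intro h0
      have h7 := congrArg Matrix.det (Matrix.nonsing_inv_mul _ hUη)
      rw [Matrix.det_mul, h0, zero_mul, Matrix.det_one] at h7
      exact zero_ne_one h7)
    hgap' hgap' hU'.inv (hL'.lowT.mul (lowT_diagonal d')) hld' hkey 1 one_pos
  exact ⟨k, hR.1, h6 n hn Γ hLF δ hδ k μ hR⟩

end Pool.Agent.Helper35.PR
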