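import Pool.Agent.Helper71.PR.Basic

/-!
# Project PR: compact flats near `k * u`
-/

set_option autoImplicit false

namespace Pool.Agent.Helper35.PR

open Pool.Agent.Helper71.PR
open Matrix Filter Topology

theorem pow_form {n : ℕ} (k : Mt n) (hk : k.det ≠ 0) (μ : Fin n → ℝ) (m : ℕ) :
    (k * diagonal μ * k⁻¹) ^ m = k * diagonal (fun i => μ i ^ m) * k⁻¹ := by
  have hu : IsUnit k.det := isUnit_iff_ne_zero.2 hk
  induction m with
  | zero =>
    have h1 : (diagonal (fun i => μ i ^ 0) : Mt n) = 1 := by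
      simp only [pow_zero]
      exact Matrix.diagonal_one
    rw [h1, pow_zero, Matrix.mul_one, Matrix.mul_nonsing_inv k hu]
  | succ m ih =>
    have h1 : (diagonal (fun i => μ i ^ (m + 1)) : Mt n) = diagonal (fun i => μ i ^ m) * diagonal μ := by
      rw [Matrix.diagonal_mul_diagonal]
      congr 1
    rw [pow_succ, ih, h1]
    have h2 : k⁻¹ * k = 1 := Matrix.nonsing_inv_mul k hu
    calc k * diagonal (fun i => μ i ^ m) * k⁻¹ * (k * diagonal μ * k⁻¹)
        = k * diagonal (fun i => μ i ^ m) * (k⁻¹ * k) * diagonal μ * k⁻¹ := by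
          simp only [Matrix.mul_assoc]
      _ = k * (diagonal (fun i => μ i ^ m) * diagonal μ) * k⁻¹ := by
          rw [h2]
          simp only [Matrix.mul_assoc, Matrix.mul_one]

theorem s3p (h1 : G_CHB) (h2 : G_D) (h3 : G_T) : G_S3P := by
  intro n hn Γ hLF hZD hCov k k' u l hk hk' hF hF' hu hl hld hkl ε hε
  obtain ⟨γ, hγ, μ, hR, hμ⟩ := h1 n (by omega) Γ k hk hF
  obtain ⟨γ', hγ', μ', hR', hμ'⟩ := h1 n (by omega) Γ k' hk' hF'
  have e1 : ∀ m : ℕ, (γ ^ m).1 = k * diagonal (fun i => μ i ^ m) * k⁻¹ := by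
    intro m
    rw [← pow_form k hk μ m, ← hR.2.1]
    exact Matrix.SpecialLinearGroup.coe_pow γ m
  have e2 : ∀ m : ℕ, (γ' ^ m).1 = k' * diagonal (fun i => μ' i ^ m) * k'⁻¹ := by
    intro m
    rw [← pow_form k' hk' μ' m, ← hR'.2.1]
    exact Matrix.SpecialLinearGroup.coe_pow γ' m
  obtain ⟨δ, hδ, k'', μ'', hR'', hnear⟩ := h2 n (by omega) Γ hZD (n - 2) hCov (fun m => γ ^ m) (fun m => γ' ^ m)
    (fun _ => k) (fun _ => k) (fun _ => k') (fun _ => k') (fun m i => μ i ^ m) (fun m i => μ' i ^ m) k k k' k' u l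
    (fun m => pow_mem hγ m) (fun m => pow_mem hγ' m) (Eventually.of_forall e1) (Eventually.of_forall e2)
    tendsto_const_nhds tendsto_const_nhds tendsto_const_nhds tendsto_const_nhds hk hk hk' hk'
    (gap_pow μ hμ hR.2.2) (gap_pow μ' hμ' hR'.2.2) hu hl hld hkl ε hε
  exact ⟨k'', hR''.1, h3 n hn Γ hLF δ hδ k'' μ'' hR'', hnear⟩

end Pool.Agent.Helper35.PR
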